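import Mathlib
import Pool.Agent.H402R2.SubMean

namespace Pool.Agent.R231.FK

open MeasureTheory Set Filter Topology Metric Real
open scoped ENNReal

/-- `ℂⁿ` (with the product Lebesgue measure) -/
abbrev V (n : ℕ) := Fin n → ℂ

/-- `|z|² = |z₁|² + ⋯ + |zₙ|²` -/
noncomputable def nsq {n : ℕ} (z : V n) : ℝ := ∑ k, ‖z k‖ ^ 2

/-- the radial derivative -/
noncomputable def Rad {n : ℕ} (f : V n → ℂ) (z : V n) : ℂ :=
  ∑ k, z k * fderiv ℂ f z (Pi.single k 1)

/-- shells -/
def Sh (n : ℕ) (a b : ℝ) : Set (V n) := {z | a ≤ nsq z ∧ nsq z < b}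

lemma nsq_nonneg {n : ℕ} (z : V n) : 0 ≤ nsq z := Finset.sum_nonneg fun _ _ => by positivity

lemma nsq_cont {n : ℕ} : Continuous (nsq : V n → ℝ) := by
  unfold nsq; fun_prop

lemma nsq_smul {n : ℕ} (c : ℂ) (z : V n) : nsq (c • z) = ‖c‖ ^ 2 * nsq z := by
  unfold nsq
  rw [Finset.mul_sum]
  refine Finset.sum_congr rfl fun k _ => ?_
  rw [Pi.smul_apply, smul_eq_mul, norm_mul, mul_pow]

lemma Sh_meas (n : ℕ) (a b : ℝ) : MeasurableSet (Sh n a b) :=
  (nsq_cont.measurable measurableSet_Ici).inter (nsq_cont.measurable measurableSet_Iio)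

lemma Rad_eq {n : ℕ} (f : V n → ℂ) (z : V n) : Rad f z = fderiv ℂ f z z := by
  unfold Rad
  have h := LinearMap.pi_apply_eq_sum_univ (fderiv ℂ f z : V n →ₗ[ℂ] ℂ) z
  rw [ContinuousLinearMap.coe_coe] at h
  rw [h]
  refine Finset.sum_congr rfl fun k _ => ?_
  rw [smul_eq_mul]
  congr 2
  funext j
  simp [Pi.single_apply, eq_comm]

lemma Rad_analytic {n : ℕ} {f : V n → ℂ} (hf : AnalyticOnNhd ℂ f univ) :
    AnalyticOnNhd ℂ (Rad f) univ := by
  have h1 : AnalyticOnNhd ℂ (fderiv ℂ f) univ := hf.fderiv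
  have h2 : AnalyticOnNhd ℂ (fun z : V n => (fderiv ℂ f z) z) univ := by
    intro z _
    have h3 := (ContinuousLinearMap.id ℂ (V n →L[ℂ] ℂ)).analyticAt_bilinear (fderiv ℂ f z, z)
    exact AnalyticAt.comp₂ (f := fderiv ℂ f) (g := fun z : V n => z) h3 (h1 z trivial) analyticAt_id
  have : Rad f = fun z : V n => (fderiv ℂ f z) z := by
    funext z; exact Rad_eq f z
  rw [this]; exact h2

lemma Rad_iter_analytic {n : ℕ} {f : V n → ℂ} (hf : AnalyticOnNhd ℂ f univ) (s : ℕ) :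
    AnalyticOnNhd ℂ (Rad^[s] f) univ := by
  induction s with
  | zero => exact hf
  | succ s ih => rw [Function.iterate_succ_apply']; exact Rad_analytic ih

lemma cont_of {n : ℕ} {f : V n → ℂ} (hf : AnalyticOnNhd ℂ f univ) : Continuous f :=
  continuousOn_univ.1 hf.continuousOn

/-- derivative along complex dilations -/
lemma slice_deriv {n : ℕ} {f : V n → ℂ} (hf : AnalyticOnNhd ℂ f univ) (z : V n) (c : ℂ) :
    HasDerivAt (fun c : ℂ => f (c • z)) (fderiv ℂ f (c • z) z) c := by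
  have h1 : HasFDerivAt f (fderiv ℂ f (c • z)) (c • z) :=
    (hf (c • z) trivial).differentiableAt.hasFDerivAt
  have h2 : HasDerivAt (fun c : ℂ => c • z) ((1 : ℂ) • z) c := (hasDerivAt_id c).smul_const z
  rw [one_smul] at h2
  exact h1.comp_hasDerivAt c h2

lemma slice_Rad {n : ℕ} (f : V n → ℂ) (z : V n) (c : ℂ) :
    Rad f (c • z) = c * fderiv ℂ f (c • z) z := by
  rw [Rad_eq, map_smul, smul_eq_mul]

/-! ### scaling of the measure -/

lemma map_smul_vol (n : ℕ) {c : ℂ} (hc : c ≠ 0) :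
    Measure.map (fun z : V n => c • z) volume =
      ENNReal.ofReal ((‖c‖⁻¹) ^ (2 * n)) • (volume : Measure (V n)) := by
  set e : V n ≃ₗ[ℝ] V n := (LinearEquiv.smulOfNeZero ℂ (V n) c hc).restrictScalars ℝ with he
  have hdet : LinearMap.det (e : V n →ₗ[ℝ] V n) ≠ 0 := (LinearEquiv.isUnit_det' e).ne_zero
  have h1 := Measure.map_linearMap_addHaar_eq_smul_addHaar (volume : Measure (V n)) hdet
  have h2 : ((e : V n →ₗ[ℝ] V n) : V n → V n) = fun z : V n => c • z := by
    funext z; rfl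
  rw [h2] at h1
  have hcn : 0 < ‖c‖ := norm_pos_iff.2 hc
  have hmeas : Measurable (fun z : V n => c • z) := (continuous_const_smul c).measurable
  have h3 : Measure.map (fun z : V n => c • z) volume (ball (0 : V n) 1) =
      ENNReal.ofReal ((‖c‖⁻¹) ^ (2 * n)) * volume (ball (0 : V n) 1) := by
    rw [Measure.map_apply hmeas measurableSet_ball]
    have : (fun z : V n => c • z) ⁻¹' (ball 0 1) = ball 0 ‖c‖⁻¹ := by
      ext z
      rw [mem_preimage, mem_ball_zero_iff, mem_ball_zero_iff, norm_smul, ← lt_div_iff₀' hcn, one_div]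
    rw [this, Measure.addHaar_ball_of_pos _ _ (by positivity)]
    have hfr : Module.finrank ℝ (V n) = 2 * n := by
      rw [Module.finrank_pi_fintype]; simp [Complex.finrank_real_complex, mul_comm]
    rw [hfr]
  rw [h1, Measure.smul_apply, smul_eq_mul] at h3
  have h4 : volume (ball (0 : V n) 1) ≠ 0 := (measure_ball_pos _ _ one_pos).ne'
  have h5 : volume (ball (0 : V n) 1) ≠ ∞ := measure_ball_lt_top.ne
  rw [h1]
  congr 1
  exact (ENNReal.mul_left_inj h4 h5).1 h3

lemma lintegral_smul_vol {n : ℕ} {c : ℂ} (hc : c ≠ 0) {g : V n → ℝ≥0∞} (hg : Measurable g) :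
    ∫⁻ z : V n, g (c • z) = ENNReal.ofReal ((‖c‖⁻¹) ^ (2 * n)) * ∫⁻ z, g z := by
  have hmeas : Measurable (fun z : V n => c • z) := (continuous_const_smul c).measurable
  rw [← lintegral_map hg hmeas, map_smul_vol n hc, lintegral_smul_measure, smul_eq_mul]

/-- change of variables on a set -/
lemma setLIntegral_smul_le {n : ℕ} {c : ℂ} (hc : c ≠ 0) {g : V n → ℝ≥0∞} (hg : Measurable g)
    {A B : Set (V n)} (hA : MeasurableSet A) (hB : MeasurableSet B)
    (hAB : ∀ z ∈ A, c • z ∈ B) :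
    ∫⁻ z in A, g (c • z) ≤ ENNReal.ofReal ((‖c‖⁻¹) ^ (2 * n)) * ∫⁻ z in B, g z := by
  rw [← lintegral_indicator hA, ← lintegral_indicator hB,
    ← lintegral_smul_vol hc (hg.indicator hB)]
  refine lintegral_mono fun z => ?_
  by_cases hz : z ∈ A
  · rw [indicator_of_mem hz, indicator_of_mem (hAB z hz)]
  · rw [indicator_of_notMem hz]; exact bot_le

/-! ### the averaging lemma on shells -/

lemma shell_avg {n : ℕ} {h : V n → ℂ} (hh : AnalyticOnNhd ℂ h univ) {p : ℝ} (hp : 0 < p) (m : ℕ) :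
    ∃ H : V n → ℝ≥0∞,
      (∀ z : V n, ∀ c : ℂ, ‖c - 1‖ ≤ 1 / (m + 4) → ‖h (c • z)‖ₑ ^ p ≤ H z) ∧
      ∫⁻ z in Sh n (m + 4) (m + 5), H z ≤ 4 ^ (n + 1) * ∫⁻ z in Sh n m (m + 13), ‖h z‖ₑ ^ p := by
  set k : ℝ := (m : ℝ) + 4 with hk
  have hm0 : (0 : ℝ) ≤ m := Nat.cast_nonneg m
  have hk4 : 4 ≤ k := by linarith
  have hk0 : 0 < k := by linarith
  have hcont := cont_of hh
  refine ⟨fun z => ENNReal.ofReal (k ^ 2 / π) * ∫⁻ c in ball (1 : ℂ) (2 / k), ‖h (c • z)‖ₑ ^ p, ?_, ?_⟩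
  · intro z c hc
    have hd : DifferentiableOn ℂ (fun c : ℂ => h (c • z)) (ball c (1 / k)) := fun x _ =>
      (slice_deriv hh z x).differentiableAt.differentiableWithinAt
    have h1 := Pool.Agent.H402R2.SubMean.rpow_mul_le_lintegral (w := c) (ρ := 1 / k) (p := p)
      (by positivity) hp hd
    have h2 : ball c (1 / k) ⊆ ball (1 : ℂ) (2 / k) := by
      intro x hx
      rw [mem_ball, dist_eq_norm] at *
      calc ‖x - 1‖ = ‖(x - c) + (c - 1)‖ := by congr 1; ring
        _ ≤ ‖x - c‖ + ‖c - 1‖ := norm_add_le _ _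
        _ < 1 / k + 1 / k := by linarith
        _ = 2 / k := by ring
    have h3 := h1.trans (lintegral_mono_set h2)
    have e1 : ‖h (c • z)‖ₑ ^ p = ENNReal.ofReal (k ^ 2 / π) * ENNReal.ofReal (‖h (c • z)‖ ^ p * (π * (1 / k) ^ 2)) := by
      rw [← ENNReal.ofReal_mul (by positivity), ← ofReal_norm,
        ENNReal.ofReal_rpow_of_nonneg (norm_nonneg _) hp.le]
      congr 1
      have := Real.pi_pos
      field_simp
    rw [e1]
    exact mul_le_mul' le_rfl h3
  · rw [lintegral_const_mul' _ _ ENNReal.ofReal_ne_top]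
    have hjm : AEMeasurable (fun q : V n × ℂ => ‖h (q.2 • q.1)‖ₑ ^ p)
        ((volume.restrict (Sh n k (m + 5))).prod (volume.restrict (ball (1 : ℂ) (2 / k)))) := by
      have : Measurable (fun q : V n × ℂ => ‖h (q.2 • q.1)‖ₑ ^ p) := by
        have hc1 : Continuous (fun q : V n × ℂ => h (q.2 • q.1)) :=
          hcont.comp (continuous_snd.smul continuous_fst)
        exact hc1.enorm.measurable.pow_const p
      exact this.aemeasurable
    rw [lintegral_lintegral_swap hjm]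
    have hgm : Measurable (fun z : V n => ‖h z‖ₑ ^ p) := hcont.enorm.measurable.pow_const p
    have hin : ∀ c ∈ ball (1 : ℂ) (2 / k), ∫⁻ z in Sh n k (m + 5), ‖h (c • z)‖ₑ ^ p ≤
        4 ^ n * ∫⁻ z in Sh n m (m + 13), ‖h z‖ₑ ^ p := by
      intro c hc
      rw [mem_ball, dist_eq_norm] at hc
      have h2k : 2 / k ≤ 1 / 2 := by
        rw [div_le_div_iff₀ hk0 (by norm_num)]; linarith
      have hc1 : 1 - 2 / k ≤ ‖c‖ := by
        have := norm_sub_norm_le (1 : ℂ) c
        rw [norm_one, norm_sub_rev] at this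
        linarith
      have hc2 : ‖c‖ ≤ 1 + 2 / k := by
        have := norm_sub_norm_le c 1
        rw [norm_one] at this
        linarith
      have hc3 : 1 / 2 ≤ ‖c‖ := by linarith
      have hc0 : c ≠ 0 := by
        intro h0; rw [h0, norm_zero] at hc3; norm_num at hc3
      refine (setLIntegral_smul_le hc0 hgm (Sh_meas n _ _) (Sh_meas n (m : ℝ) (m + 13)) ?_).trans ?_
      · rintro z ⟨hz1, hz2⟩
        refine ⟨?_, ?_⟩
        · rw [nsq_smul]
          have h5 : (1 - 2 / k) ^ 2 ≤ ‖c‖ ^ 2 := pow_le_pow_left₀ (by linarith) hc1 2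
          have h6 : (m : ℝ) ≤ (1 - 2 / k) ^ 2 * k := by
            have : (1 - 2 / k) ^ 2 * k = k - 4 + 4 / k := by field_simp; ring
            rw [this]
            have : 0 < 4 / k := by positivity
            linarith
          calc (m : ℝ) ≤ (1 - 2 / k) ^ 2 * k := h6
            _ ≤ ‖c‖ ^ 2 * nsq z := by gcongr
        · rw [nsq_smul]
          have h5 : ‖c‖ ^ 2 ≤ (1 + 2 / k) ^ 2 := pow_le_pow_left₀ (norm_nonneg _) hc2 2
          have h6 : (1 + 2 / k) ^ 2 * (k + 1) < (m : ℝ) + 13 := by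
            have : (1 + 2 / k) ^ 2 * (k + 1) = k + 5 + 8 / k + 4 / k ^ 2 := by field_simp; ring
            rw [this]
            have a1 : 8 / k ≤ 2 := by rw [div_le_iff₀ hk0]; linarith
            have a2 : 4 / k ^ 2 ≤ 1 := by rw [div_le_iff₀ (by positivity)]; nlinarith
            linarith
          have hz2' : nsq z ≤ k + 1 := by linarith
          calc ‖c‖ ^ 2 * nsq z ≤ (1 + 2 / k) ^ 2 * (k + 1) := by
                have := nsq_nonneg z
                gcongr
            _ < (m : ℝ) + 13 := h6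
      · have h7 : ENNReal.ofReal ((‖c‖⁻¹) ^ (2 * n)) ≤ 4 ^ n := by
          have h8 : (‖c‖⁻¹) ^ (2 * n) ≤ 4 ^ n := by
            have h9 : ‖c‖⁻¹ ≤ 2 := by
              rw [inv_le_comm₀ (by linarith) (by norm_num)]; linarith
            calc (‖c‖⁻¹) ^ (2 * n) ≤ 2 ^ (2 * n) := by gcongr
              _ = 4 ^ n := by rw [pow_mul]; norm_num
          calc ENNReal.ofReal ((‖c‖⁻¹) ^ (2 * n)) ≤ ENNReal.ofReal (4 ^ n) := ENNReal.ofReal_le_ofReal h8
            _ = 4 ^ n := by rw [ENNReal.ofReal_pow (by norm_num)]; norm_num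
        gcongr
    have hball : volume (ball (1 : ℂ) (2 / k)) = ENNReal.ofReal (4 * π / k ^ 2) := by
      rw [Complex.volume_ball, ← ENNReal.ofReal_pow (by positivity)]
      have : (NNReal.pi : ℝ≥0∞) = ENNReal.ofReal π := by
        rw [← NNReal.coe_real_pi, ENNReal.ofReal_coe_nnreal]
      rw [this, ← ENNReal.ofReal_mul (by positivity)]
      congr 1
      ring
    calc ENNReal.ofReal (k ^ 2 / π) * ∫⁻ c in ball (1 : ℂ) (2 / k), ∫⁻ z in Sh n k (m + 5), ‖h (c • z)‖ₑ ^ p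
        ≤ ENNReal.ofReal (k ^ 2 / π) * ∫⁻ _ in ball (1 : ℂ) (2 / k),
            4 ^ n * ∫⁻ z in Sh n m (m + 13), ‖h z‖ₑ ^ p := by
          gcongr 1
          exact setLIntegral_mono' measurableSet_ball hin
      _ = 4 ^ (n + 1) * ∫⁻ z in Sh n m (m + 13), ‖h z‖ₑ ^ p := by
          rw [setLIntegral_const, hball]
          have e2 : ENNReal.ofReal (k ^ 2 / π) * ENNReal.ofReal (4 * π / k ^ 2) = 4 := by
            rw [← ENNReal.ofReal_mul (by positivity)]
            have : k ^ 2 / π * (4 * π / k ^ 2) = 4 := by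
              have := Real.pi_pos
              field_simp
            rw [this]; norm_num
          rw [pow_succ (4 : ℝ≥0∞) n]
          calc ENNReal.ofReal (k ^ 2 / π) * (4 ^ n * (∫⁻ z in Sh n m (m + 13), ‖h z‖ₑ ^ p) * ENNReal.ofReal (4 * π / k ^ 2))
              = 4 ^ n * (ENNReal.ofReal (k ^ 2 / π) * ENNReal.ofReal (4 * π / k ^ 2)) * (∫⁻ z in Sh n m (m + 13), ‖h z‖ₑ ^ p) := by ring
            _ = _ := by rw [e2]

end Pool.Agent.R231.FK
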