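import Pool.Agent.R231.FK.Basic

namespace Pool.Agent.R231.FK

open MeasureTheory Set Filter Topology Metric Real
open scoped ENNReal

/-- the weight -/
noncomputable def kap (α p : ℝ) (s : ℕ) (a : ℝ) : ℝ := (((1 + a) ^ s)⁻¹ * Real.exp (-(α * a) / 2)) ^ p

lemma kap_pos {α p : ℝ} {s : ℕ} {a : ℝ} (ha : 0 ≤ a) : 0 < kap α p s a := by
  unfold kap; positivity

lemma kap_anti {α p : ℝ} (hα : 0 < α) (hp : 0 < p) {s : ℕ} {a b : ℝ} (ha : 0 ≤ a) (hab : a ≤ b) :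
    kap α p s b ≤ kap α p s a := by
  unfold kap
  have hb : 0 ≤ b := ha.trans hab
  apply Real.rpow_le_rpow (by positivity) _ hp.le
  gcongr

lemma kap_shift {α p : ℝ} (hp : 0 < p) {s : ℕ} {k : ℝ} (hk : 1 ≤ k) :
    kap α p s k ≤ Real.exp (-(α * p) / 2) * kap α p s (k - 1) := by
  unfold kap
  have e1 : Real.exp (-(α * p) / 2) = (Real.exp (-α / 2)) ^ p := by
    rw [← Real.exp_mul]; congr 1; ring
  have hk0 : 0 < k := by linarith
  have e0 : (1 : ℝ) + (k - 1) = k := by ring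
  rw [e1, e0, ← Real.mul_rpow (by positivity) (by positivity)]
  apply Real.rpow_le_rpow (by positivity) _ hp.le
  have e2 : Real.exp (-(α * k) / 2) = Real.exp (-α / 2) * Real.exp (-(α * (k - 1)) / 2) := by
    rw [← Real.exp_add]; congr 1; ring
  rw [e2]
  have h3 : ((1 + k) ^ s)⁻¹ ≤ (k ^ s)⁻¹ := by
    apply inv_anti₀ (by positivity)
    gcongr; linarith
  calc ((1 + k) ^ s)⁻¹ * (Real.exp (-α / 2) * Real.exp (-(α * (k - 1)) / 2))
      ≤ (k ^ s)⁻¹ * (Real.exp (-α / 2) * Real.exp (-(α * (k - 1)) / 2)) := by gcongr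
    _ = _ := by ring

lemma kap_R1 {α p : ℝ} (hp : 0 < p) {s : ℕ} {k : ℝ} (hk : 4 ≤ k) :
    kap α p (s + 1) k * k ^ p ≤ (8 * 10 ^ s * Real.exp (9 * α / 2)) ^ p * kap α p s (k + 9) := by
  unfold kap
  have hk0 : 0 < k := by linarith
  rw [← Real.mul_rpow (by positivity) (by positivity), ← Real.mul_rpow (by positivity) (by positivity)]
  apply Real.rpow_le_rpow (by positivity) _ hp.le
  have e2 : Real.exp (-(α * k) / 2) = Real.exp (9 * α / 2) * Real.exp (-(α * (k + 9)) / 2) := by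
    rw [← Real.exp_add]; congr 1; ring
  rw [e2]
  have h3 : ((1 + k) ^ (s + 1))⁻¹ * k ≤ 8 * 10 ^ s * ((1 + (k + 9)) ^ s)⁻¹ := by
    have h4 : (1 + (k + 9)) ^ s ≤ 10 ^ s * (1 + k) ^ s := by
      rw [← mul_pow]; gcongr; linarith
    rw [← div_eq_mul_inv, inv_mul_eq_div, div_le_div_iff₀ (by positivity) (by positivity)]
    calc k * (1 + (k + 9)) ^ s ≤ k * (10 ^ s * (1 + k) ^ s) := by gcongr
      _ ≤ (8 * (1 + k)) * (10 ^ s * (1 + k) ^ s) := by gcongr; linarith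
      _ = _ := by ring
  calc ((1 + k) ^ (s + 1))⁻¹ * (Real.exp (9 * α / 2) * Real.exp (-(α * (k + 9)) / 2)) * k
      = (((1 + k) ^ (s + 1))⁻¹ * k) * (Real.exp (9 * α / 2) * Real.exp (-(α * (k + 9)) / 2)) := by ring
    _ ≤ (8 * 10 ^ s * ((1 + (k + 9)) ^ s)⁻¹) * (Real.exp (9 * α / 2) * Real.exp (-(α * (k + 9)) / 2)) := by
        gcongr
    _ = _ := by ring

lemma kap_R2 {α p : ℝ} (hp : 0 < p) {s : ℕ} {k : ℝ} (hk : 4 ≤ k) :
    kap α p s k * (2 / k) ^ p ≤ (8 * 10 ^ s * Real.exp (9 * α / 2)) ^ p * kap α p (s + 1) (k + 9) := by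
  unfold kap
  have hk0 : 0 < k := by linarith
  rw [← Real.mul_rpow (by positivity) (by positivity), ← Real.mul_rpow (by positivity) (by positivity)]
  apply Real.rpow_le_rpow (by positivity) _ hp.le
  have e2 : Real.exp (-(α * k) / 2) = Real.exp (9 * α / 2) * Real.exp (-(α * (k + 9)) / 2) := by
    rw [← Real.exp_add]; congr 1; ring
  rw [e2]
  have h3 : ((1 + k) ^ s)⁻¹ * (2 / k) ≤ 8 * 10 ^ s * ((1 + (k + 9)) ^ (s + 1))⁻¹ := by
    have h4 : (1 + (k + 9)) ^ s ≤ 10 ^ s * (1 + k) ^ s := by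
      rw [← mul_pow]; gcongr; linarith
    rw [← div_eq_mul_inv, inv_mul_eq_div, div_div, div_le_div_iff₀ (by positivity) (by positivity)]
    calc 2 * (1 + (k + 9)) ^ (s + 1) = 2 * (1 + (k + 9)) * (1 + (k + 9)) ^ s := by ring
      _ ≤ 2 * (1 + (k + 9)) * (10 ^ s * (1 + k) ^ s) := by gcongr
      _ ≤ (8 * k) * (10 ^ s * (1 + k) ^ s) := by gcongr ?_ * _; linarith
      _ = _ := by ring
  calc ((1 + k) ^ s)⁻¹ * (Real.exp (9 * α / 2) * Real.exp (-(α * (k + 9)) / 2)) * (2 / k)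
      = (((1 + k) ^ s)⁻¹ * (2 / k)) * (Real.exp (9 * α / 2) * Real.exp (-(α * (k + 9)) / 2)) := by ring
    _ ≤ (8 * 10 ^ s * ((1 + (k + 9)) ^ (s + 1))⁻¹) * (Real.exp (9 * α / 2) * Real.exp (-(α * (k + 9)) / 2)) := by
        gcongr
    _ = _ := by ring


end Pool.Agent.R231.FK
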