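import Pool.Agent.R231.FK.Kap

namespace Pool.Agent.R231.FK

open MeasureTheory Set Filter Topology Metric Real
open scoped ENNReal

/-- weighted integral -/
noncomputable def Phi {n : ℕ} (α p : ℝ) (s : ℕ) (f : V n → ℂ) : ℝ≥0∞ :=
  ∫⁻ z, ‖f z‖ₑ ^ p * ENNReal.ofReal (kap α p s (nsq z))

lemma shell_le_of_kap {n : ℕ} {α p : ℝ} (hα : 0 < α) (hp : 0 < p) (s : ℕ) (f : V n → ℂ)
    {a b : ℝ} :
    ENNReal.ofReal (kap α p s b) * ∫⁻ z in Sh n a b, ‖f z‖ₑ ^ p ≤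
      ∫⁻ z in Sh n a b, ‖f z‖ₑ ^ p * ENNReal.ofReal (kap α p s (nsq z)) := by
  rw [← lintegral_const_mul' _ _ ENNReal.ofReal_ne_top]
  refine setLIntegral_mono' (Sh_meas n a b) fun z hz => ?_
  rw [mul_comm]
  gcongr
  exact kap_anti hα hp (nsq_nonneg z) hz.2.le

lemma kap_le_shell {n : ℕ} {α p : ℝ} (hα : 0 < α) (hp : 0 < p) (s : ℕ) (f : V n → ℂ)
    {a b : ℝ} (ha : 0 ≤ a) :
    ∫⁻ z in Sh n a b, ‖f z‖ₑ ^ p * ENNReal.ofReal (kap α p s (nsq z)) ≤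
      ENNReal.ofReal (kap α p s a) * ∫⁻ z in Sh n a b, ‖f z‖ₑ ^ p := by
  rw [← lintegral_const_mul' _ _ ENNReal.ofReal_ne_top]
  refine setLIntegral_mono' (Sh_meas n a b) fun z hz => ?_
  rw [mul_comm]
  gcongr
  exact kap_anti hα hp ha hz.1

/-- pointwise Cauchy estimate -/
lemma cauchy_pt {n : ℕ} {f : V n → ℂ} (hf : AnalyticOnNhd ℂ f univ) {p : ℝ} (hp : 0 < p)
    {k : ℝ} (hk : 0 < k) {z : V n} {H : ℝ≥0∞}
    (hH : ∀ c : ℂ, ‖c - 1‖ ≤ 1 / k → ‖f (c • z)‖ₑ ^ p ≤ H) :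
    ‖Rad f z‖ₑ ^ p ≤ ENNReal.ofReal (k ^ p) * H := by
  rcases eq_or_ne H ∞ with h | h
  · rw [h, ENNReal.mul_top]
    · exact le_top
    · simp only [ne_eq, ENNReal.ofReal_eq_zero, not_le]; positivity
  set C := (H ^ (1 / p)).toReal with hC
  have hHp : H ^ (1 / p) ≠ ∞ := (ENNReal.rpow_lt_top_of_nonneg (by positivity) h).ne
  have hb : ∀ c : ℂ, ‖c - 1‖ ≤ 1 / k → ‖f (c • z)‖ ≤ C := by
    intro c hc
    have h1 := hH c hc
    have h2 : ‖f (c • z)‖ₑ ≤ H ^ (1 / p) := by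
      rw [one_div, ENNReal.le_rpow_inv_iff hp]; exact h1
    rw [← ofReal_norm] at h2
    have := ENNReal.toReal_mono hHp h2
    rwa [ENNReal.toReal_ofReal (norm_nonneg _)] at this
  have hd : Differentiable ℂ (fun c : ℂ => f (c • z)) := fun x =>
    (slice_deriv hf z x).differentiableAt
  have h3 := Complex.norm_deriv_le_of_forall_mem_sphere_norm_le (c := 1) (R := 1 / k) (C := C)
    (f := fun c : ℂ => f (c • z)) (by positivity) hd.diffContOnCl (by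
      intro c hc
      rw [mem_sphere, dist_eq_norm] at hc
      exact hb c hc.le)
  rw [(slice_deriv hf z 1).deriv] at h3
  have h4 : Rad f z = fderiv ℂ f ((1 : ℂ) • z) z := by
    rw [one_smul, Rad_eq]
  rw [← h4] at h3
  have h5 : ‖Rad f z‖ ≤ k * C := by
    rw [div_div_eq_mul_div, div_one] at h3; linarith
  have h6 : ‖Rad f z‖ₑ ≤ ENNReal.ofReal k * H ^ (1 / p) := by
    rw [← ofReal_norm]
    calc ENNReal.ofReal ‖Rad f z‖ ≤ ENNReal.ofReal (k * C) := ENNReal.ofReal_le_ofReal h5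
      _ = ENNReal.ofReal k * H ^ (1 / p) := by
          rw [ENNReal.ofReal_mul hk.le, hC, ENNReal.ofReal_toReal hHp]
  calc ‖Rad f z‖ₑ ^ p ≤ (ENNReal.ofReal k * H ^ (1 / p)) ^ p := by gcongr
    _ = _ := by
        rw [ENNReal.mul_rpow_of_nonneg _ _ hp.le, ENNReal.ofReal_rpow_of_nonneg hk.le hp.le,
          ← ENNReal.rpow_mul, one_div_mul_cancel hp.ne', ENNReal.rpow_one]

/-- pointwise difference estimate -/
lemma diff_pt {n : ℕ} {f : V n → ℂ} (hf : AnalyticOnNhd ℂ f univ) {p : ℝ} (hp : 0 < p)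
    {k t : ℝ} (hk : 0 < k) (ht : 1 / 2 ≤ t) (ht1 : t ≤ 1) (htk : 1 - t ≤ 1 / k) {z : V n} {H : ℝ≥0∞}
    (hH : ∀ c : ℂ, ‖c - 1‖ ≤ 1 / k → ‖Rad f (c • z)‖ₑ ^ p ≤ H) :
    ‖f z‖ₑ ≤ ‖f ((t : ℂ) • z)‖ₑ + ENNReal.ofReal (2 / k) * H ^ (1 / p) := by
  rcases eq_or_ne H ∞ with h | h
  · rw [h, ENNReal.top_rpow_of_pos (by positivity), ENNReal.mul_top]
    · simp
    · simp only [ne_eq, ENNReal.ofReal_eq_zero, not_le]; positivity
  set C := (H ^ (1 / p)).toReal with hC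
  have hHp : H ^ (1 / p) ≠ ∞ := (ENNReal.rpow_lt_top_of_nonneg (by positivity) h).ne
  have hC0 : 0 ≤ C := ENNReal.toReal_nonneg
  have hb : ∀ c : ℂ, ‖c - 1‖ ≤ 1 / k → ‖Rad f (c • z)‖ ≤ C := by
    intro c hc
    have h1 := hH c hc
    have h2 : ‖Rad f (c • z)‖ₑ ≤ H ^ (1 / p) := by
      rw [one_div, ENNReal.le_rpow_inv_iff hp]; exact h1
    rw [← ofReal_norm] at h2
    have := ENNReal.toReal_mono hHp h2
    rwa [ENNReal.toReal_ofReal (norm_nonneg _)] at this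
  have hder : ∀ x ∈ Icc t 1, HasDerivWithinAt (fun x : ℝ => f ((x : ℂ) • z))
      (fderiv ℂ f ((x : ℂ) • z) z) (Icc t 1) x := by
    intro x _
    exact (slice_deriv hf z (x : ℂ)).comp_ofReal.hasDerivWithinAt
  have hbd : ∀ x ∈ Icc t 1, ‖fderiv ℂ f ((x : ℂ) • z) z‖ ≤ 2 * C := by
    intro x hx
    have hx0 : 0 < x := by linarith [hx.1]
    have h1 := hb (x : ℂ) (by
      have : ((x : ℂ) - 1) = ((x - 1 : ℝ) : ℂ) := by push_cast; ring
      rw [this, Complex.norm_real, Real.norm_eq_abs, abs_sub_comm, abs_of_nonneg (by linarith [hx.2])]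
      linarith [hx.1])
    rw [slice_Rad, norm_mul, Complex.norm_real, Real.norm_eq_abs, abs_of_pos hx0] at h1
    nlinarith [norm_nonneg (fderiv ℂ f ((x : ℂ) • z) z), hx.1]
  have hmv := (convex_Icc t 1).norm_image_sub_le_of_norm_hasDerivWithin_le hder hbd
    (left_mem_Icc.2 ht1) (right_mem_Icc.2 ht1)
  simp only [Complex.ofReal_one, one_smul] at hmv
  rw [Real.norm_eq_abs, abs_of_nonneg (by linarith)] at hmv
  have h7 : ‖f z - f ((t : ℂ) • z)‖ ≤ 2 / k * C := by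
    calc _ ≤ _ := hmv
      _ ≤ 2 * C * (1 / k) := by gcongr
      _ = _ := by ring
  calc ‖f z‖ₑ = ‖f ((t : ℂ) • z) + (f z - f ((t : ℂ) • z))‖ₑ := by congr 1; ring
    _ ≤ ‖f ((t : ℂ) • z)‖ₑ + ‖f z - f ((t : ℂ) • z)‖ₑ := enorm_add_le _ _
    _ ≤ ‖f ((t : ℂ) • z)‖ₑ + ENNReal.ofReal (2 / k) * H ^ (1 / p) := by
        gcongr
        rw [← ofReal_norm]
        calc _ ≤ ENNReal.ofReal (2 / k * C) := ENNReal.ofReal_le_ofReal h7
          _ = _ := by rw [ENNReal.ofReal_mul (by positivity), hC, ENNReal.ofReal_toReal hHp]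

end Pool.Agent.R231.FK
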