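import Pool.Agent.R231.FK.Basic

namespace Pool.Agent.R231.FK

open MeasureTheory Set Filter Topology Metric Real
open scoped ENNReal

/-! ### summation over shells -/

lemma sum_shells {n : ℕ} (g : V n → ℝ≥0∞) :
    ∑' i : ℕ, ∫⁻ z in Sh n i (i + 1), g z = ∫⁻ z, g z := by
  rw [← lintegral_iUnion (fun i : ℕ => Sh_meas n i (i + 1))]
  · have : (⋃ i : ℕ, Sh n (i : ℝ) ((i : ℝ) + 1)) = univ := by
      rw [eq_univ_iff_forall]
      intro z
      rw [mem_iUnion]
      exact ⟨⌊nsq z⌋₊, Nat.floor_le (nsq_nonneg z), Nat.lt_floor_add_one _⟩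
    rw [this, setLIntegral_univ]
  · intro i j hij
    rw [Function.onFun, Set.disjoint_left]
    rintro z ⟨h1, h2⟩ ⟨h3, h4⟩
    rcases lt_or_gt_of_ne hij with h | h
    · have : (i : ℝ) + 1 ≤ j := by exact_mod_cast h
      linarith
    · have : (j : ℝ) + 1 ≤ i := by exact_mod_cast h
      linarith

lemma shell_le_sum {n : ℕ} (g : V n → ℝ≥0∞) (m J : ℕ) :
    ∫⁻ z in Sh n m (m + J), g z ≤ ∑ j ∈ Finset.range J, ∫⁻ z in Sh n (m + j : ℕ) ((m + j : ℕ) + 1), g z := by
  induction J with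
  | zero =>
    have : Sh n (m : ℝ) (m + (0 : ℕ)) = ∅ := by
      ext z
      simp only [mem_empty_iff_false, iff_false]
      rintro ⟨h1, h2⟩
      push_cast at h2
      linarith
    rw [this]; simp
  | succ J ih =>
    rw [Finset.sum_range_succ]
    have h1 : Sh n (m : ℝ) (m + (J + 1 : ℕ)) ⊆ Sh n (m : ℝ) (m + J) ∪ Sh n (m + J : ℕ) ((m + J : ℕ) + 1) := by
      rintro z ⟨h2, h3⟩
      push_cast at h3
      rcases lt_or_ge (nsq z) (m + J) with h | h
      · exact Or.inl ⟨h2, h⟩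
      · refine Or.inr ⟨?_, ?_⟩
        · push_cast; exact h
        · push_cast; linarith
    refine (lintegral_mono_set h1).trans ((lintegral_union_le _ _ _).trans ?_)
    gcongr

lemma sum_overlap {n : ℕ} (g : V n → ℝ≥0∞) :
    ∑' m : ℕ, ∫⁻ z in Sh n m (m + 13), g z ≤ 13 * ∫⁻ z, g z := by
  set S : ℕ → ℝ≥0∞ := fun i => ∫⁻ z in Sh n i (i + 1), g z with hS
  have h1 : ∀ m : ℕ, ∫⁻ z in Sh n m (m + 13), g z ≤ ∑ j ∈ Finset.range 13, S (m + j) := by
    intro m
    have := shell_le_sum g m 13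
    push_cast at this
    refine this.trans (le_of_eq ?_)
    rw [hS]
    refine Finset.sum_congr rfl fun j _ => ?_
    push_cast
    rfl
  calc ∑' m : ℕ, ∫⁻ z in Sh n m (m + 13), g z ≤ ∑' m : ℕ, ∑ j ∈ Finset.range 13, S (m + j) :=
        ENNReal.tsum_le_tsum h1
    _ = ∑ j ∈ Finset.range 13, ∑' m : ℕ, S (m + j) :=
        Summable.tsum_finsetSum fun _ _ => ENNReal.summable
    _ ≤ ∑ _j ∈ Finset.range 13, ∑' i : ℕ, S i := by
        refine Finset.sum_le_sum fun j _ => ?_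
        exact ENNReal.tsum_comp_le_tsum_of_injective (add_left_injective j) S
    _ = 13 * ∫⁻ z, g z := by
        rw [Finset.sum_const, Finset.card_range, sum_shells]
        simp

lemma shell_finite {n : ℕ} {f : V n → ℂ} (hf : Continuous f) {p : ℝ} (hp : 0 < p) (a b : ℝ) :
    ∫⁻ z in Sh n a b, ‖f z‖ₑ ^ p < ∞ := by
  have hsub : Sh n a b ⊆ closedBall (0 : V n) (|b| + 1) := by
    rintro z ⟨-, h2⟩
    rw [mem_closedBall_zero_iff, pi_norm_le_iff_of_nonneg (by positivity)]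
    intro k
    have h3 : ‖z k‖ ^ 2 ≤ nsq z := by
      unfold nsq
      exact Finset.single_le_sum (f := fun k => ‖z k‖ ^ 2) (fun _ _ => by positivity) (Finset.mem_univ k)
    have h4 : b ≤ |b| := le_abs_self b
    nlinarith [abs_nonneg b, norm_nonneg (z k), sq_nonneg (‖z k‖ - 1)]
  refine lt_of_le_of_lt (lintegral_mono_set hsub) ?_
  obtain ⟨C, hC⟩ := (isCompact_closedBall (0 : V n) (|b| + 1)).exists_bound_of_continuousOn hf.continuousOn
  have h1 : ∫⁻ z in closedBall (0 : V n) (|b| + 1), ‖f z‖ₑ ^ p ≤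
      ∫⁻ _ in closedBall (0 : V n) (|b| + 1), (ENNReal.ofReal C) ^ p := by
    refine setLIntegral_mono' measurableSet_closedBall fun z hz => ?_
    gcongr
    rw [← ofReal_norm]
    exact ENNReal.ofReal_le_ofReal (hC z hz)
  refine lt_of_le_of_lt h1 ?_
  rw [setLIntegral_const]
  exact ENNReal.mul_lt_top (ENNReal.rpow_lt_top_of_nonneg hp.le ENNReal.ofReal_ne_top)
    measure_closedBall_lt_top


end Pool.Agent.R231.FK
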