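import Pool.Agent.R231.FK.Basic

namespace Pool.Agent.R231.FK

open MeasureTheory Set Filter Topology Metric Real
open scoped ENNReal

/-! ### two small lemmas in `[0,∞]` -/

lemma rec_sum {a d : ℕ → ℝ≥0∞} {K : ℕ} {q : ℝ≥0∞} (hq : q < 1)
    (h : ∀ m, a (K + m + 1) ≤ q * a (K + m) + d m) (ha : ∀ i, a i < ∞) (hd : ∑' m, d m < ∞) :
    ∑' i, a i < ∞ := by
  set D := ∑' m, d m with hD
  have h1q : 1 - q ≠ 0 := (tsub_pos_of_lt hq).ne'
  have h1q' : 1 - q ≠ ∞ := ne_top_of_le_ne_top ENNReal.one_ne_top tsub_le_self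
  set B := (a K + D) / (1 - q) with hB
  have hBeq : a K + D + q * B = B := by
    have e1 : (1 - q) * B = a K + D := ENNReal.mul_div_cancel h1q h1q'
    rw [← e1, ← add_mul, tsub_add_cancel_of_le hq.le, one_mul]
  have hT : ∀ N, ∑ m ∈ Finset.range N, a (K + m) ≤ B := by
    intro N
    induction N with
    | zero => simp
    | succ N ih =>
      rw [Finset.sum_range_succ']
      calc ∑ k ∈ Finset.range N, a (K + (k + 1)) + a (K + 0)
          ≤ ∑ k ∈ Finset.range N, (q * a (K + k) + d k) + a K := by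
            gcongr with k _
            · exact h k
            · simp
        _ = q * ∑ k ∈ Finset.range N, a (K + k) + ∑ k ∈ Finset.range N, d k + a K := by
            rw [Finset.sum_add_distrib, Finset.mul_sum]
        _ ≤ q * B + D + a K := by
            gcongr
            exact ENNReal.sum_le_tsum _
        _ = a K + D + q * B := by ring
        _ = B := hBeq
  have hBfin : B < ∞ := ENNReal.div_lt_top (ENNReal.add_lt_top.2 ⟨ha K, hd⟩).ne h1q
  have h2 : ∑' m, a (m + K) ≤ B := by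
    refine ENNReal.tsum_le_of_sum_range_le fun N => ?_
    refine le_trans (le_of_eq ?_) (hT N)
    refine Finset.sum_congr rfl fun m _ => ?_
    rw [add_comm]
  have e := (ENNReal.summable (f := fun i => a (i + K))).sum_add_tsum_nat_add'
  rw [← e]
  refine ENNReal.add_lt_top.2 ⟨ENNReal.sum_lt_top.2 fun i _ => ha i, lt_of_le_of_lt h2 hBfin⟩

lemma add_rpow_le {p δ : ℝ} (hp : 0 < p) (hδ : 0 < δ) :
    ∃ C : ℝ, 0 < C ∧ ∀ a b : ℝ≥0∞, (a + b) ^ p ≤ ENNReal.ofReal (1 + δ) * a ^ p + ENNReal.ofReal C * b ^ p := by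
  obtain ⟨η, hη, hη2⟩ : ∃ η : ℝ, 0 < η ∧ (1 + η) ^ p ≤ 1 + δ := by
    have hc : Tendsto (fun η : ℝ => (1 + η) ^ p) (𝓝[>] 0) (𝓝 ((1 + 0) ^ p)) := by
      have : ContinuousAt (fun η : ℝ => (1 + η) ^ p) 0 :=
        ContinuousAt.rpow_const (by fun_prop) (Or.inr hp.le)
      exact this.tendsto.mono_left nhdsWithin_le_nhds
    rw [add_zero, Real.one_rpow] at hc
    have h1 := hc.eventually (gt_mem_nhds (show (1:ℝ) < 1 + δ by linarith))
    obtain ⟨η, h2, h3⟩ := (h1.and self_mem_nhdsWithin).exists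
    exact ⟨η, h3, h2.le⟩
  refine ⟨(1 + 1 / η) ^ p, by positivity, fun a b => ?_⟩
  rcases le_total b (ENNReal.ofReal η * a) with h | h
  · calc (a + b) ^ p ≤ (ENNReal.ofReal (1 + η) * a) ^ p := by
          gcongr
          rw [ENNReal.ofReal_add (by norm_num) hη.le, ENNReal.ofReal_one, add_mul, one_mul]
          gcongr
      _ = ENNReal.ofReal ((1 + η) ^ p) * a ^ p := by
          rw [ENNReal.mul_rpow_of_nonneg _ _ hp.le, ENNReal.ofReal_rpow_of_nonneg (by positivity) hp.le]
      _ ≤ ENNReal.ofReal (1 + δ) * a ^ p := by gcongr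
      _ ≤ _ := le_self_add
  · have h' : a ≤ ENNReal.ofReal (1 / η) * b := by
      calc a = ENNReal.ofReal (1 / η) * (ENNReal.ofReal η * a) := by
            rw [← mul_assoc, ← ENNReal.ofReal_mul (by positivity)]
            have : 1 / η * η = 1 := by field_simp
            rw [this, ENNReal.ofReal_one, one_mul]
        _ ≤ _ := by gcongr
    calc (a + b) ^ p ≤ (ENNReal.ofReal (1 + 1 / η) * b) ^ p := by
          gcongr
          rw [add_comm (1:ℝ), ENNReal.ofReal_add (by positivity) (by norm_num), ENNReal.ofReal_one, add_mul, one_mul]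
          gcongr
      _ = ENNReal.ofReal ((1 + 1 / η) ^ p) * b ^ p := by
          rw [ENNReal.mul_rpow_of_nonneg _ _ hp.le, ENNReal.ofReal_rpow_of_nonneg (by positivity) hp.le]
      _ ≤ _ := le_add_self


end Pool.Agent.R231.FK
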