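import Pool.Agent.R231.FK.Two

namespace Pool.Agent.R231.FK

open MeasureTheory Set Filter Topology Metric Real
open scoped ENNReal

variable {n : ℕ}

/-- pointwise bound with weight -/
def Bd (α : ℝ) (s : ℕ) (f : V n → ℂ) : Prop :=
  ∃ C : ℝ, ∀ z : V n, ‖f z‖ ≤ C * ((1 + nsq z) ^ s * Real.exp (α * nsq z / 2))

lemma forwardTop {α : ℝ} (hα : 0 < α) (s : ℕ) {f : V n → ℂ} (hf : AnalyticOnNhd ℂ f univ)
    (h : Bd α s f) : Bd α (s + 1) (Rad f) := by
  obtain ⟨C, hC⟩ := h
  have hC0 : 0 ≤ C := by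
    by_contra hcon
    push Not at hcon
    have h1 := hC 0
    have h2 := norm_nonneg (f 0)
    have h3 : 0 < (1 + nsq (0 : V n)) ^ s * Real.exp (α * nsq (0 : V n) / 2) := by
      have := nsq_nonneg (0 : V n)
      positivity
    nlinarith
  refine ⟨C * 4 ^ s * Real.exp (3 * α / 2), fun z => ?_⟩
  set Q := nsq z with hQ
  have hQ0 : 0 ≤ Q := nsq_nonneg z
  have hd : Differentiable ℂ (fun c : ℂ => f (c • z)) := fun x =>
    (slice_deriv hf z x).differentiableAt
  set B := C * 4 ^ s * Real.exp (3 * α / 2) * ((1 + Q) ^ s * Real.exp (α * Q / 2)) with hB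
  have h3 := Complex.norm_deriv_le_of_forall_mem_sphere_norm_le (c := 1) (R := 1 / (1 + Q)) (C := B)
    (f := fun c : ℂ => f (c • z)) (by positivity) hd.diffContOnCl (by
      intro c hc
      rw [mem_sphere, dist_eq_norm] at hc
      have h1 : ‖c‖ ≤ 1 + 1 / (1 + Q) := by
        have := norm_sub_norm_le c 1
        rw [norm_one] at this
        linarith
      have h2 : nsq (c • z) ≤ Q + 3 := by
        rw [nsq_smul]
        have e1 : ‖c‖ ^ 2 ≤ (1 + 1 / (1 + Q)) ^ 2 := pow_le_pow_left₀ (norm_nonneg _) h1 2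
        have e2 : (1 + 1 / (1 + Q)) ^ 2 * Q ≤ Q + 3 := by
          have e3 : Q / (1 + Q) ≤ 1 := by rw [div_le_one (by positivity)]; linarith
          have e4 : (1 + 1 / (1 + Q)) ^ 2 * Q = Q + 2 * (Q / (1 + Q)) + (1 / (1 + Q)) * (Q / (1 + Q)) := by
            field_simp
            ring
          have e5 : 1 / (1 + Q) ≤ 1 := by rw [div_le_one (by positivity)]; linarith
          have e6 : 0 ≤ Q / (1 + Q) := by positivity
          have e7 : (1 / (1 + Q)) * (Q / (1 + Q)) ≤ 1 := mul_le_one₀ e5 e6 e3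
          rw [e4]; linarith
        calc ‖c‖ ^ 2 * nsq z ≤ (1 + 1 / (1 + Q)) ^ 2 * Q := by gcongr
          _ ≤ _ := e2
      have h0 := nsq_nonneg (c • z)
      calc ‖f (c • z)‖ ≤ C * ((1 + nsq (c • z)) ^ s * Real.exp (α * nsq (c • z) / 2)) := hC _
        _ ≤ C * ((4 * (1 + Q)) ^ s * Real.exp (3 * α / 2 + α * Q / 2)) := by
            gcongr
            · linarith
            · nlinarith
        _ = B := by rw [hB, Real.exp_add, mul_pow]; ring)
  rw [(slice_deriv hf z 1).deriv] at h3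
  have h4 : Rad f z = fderiv ℂ f ((1 : ℂ) • z) z := by
    rw [one_smul, Rad_eq]
  rw [← h4, div_div_eq_mul_div, div_one] at h3
  refine h3.trans (le_of_eq ?_)
  rw [hB, pow_succ]; ring

lemma backwardTop {α : ℝ} (hα : 0 < α) (s : ℕ) {f : V n → ℂ} (hf : AnalyticOnNhd ℂ f univ)
    (h : Bd α (s + 1) (Rad f)) : Bd α s f := by
  obtain ⟨C, hC⟩ := h
  have hfc := cont_of hf
  -- bound on the unit ball
  have hcomp : IsCompact {z : V n | nsq z ≤ 1} := by
    refine Metric.isCompact_of_isClosed_isBounded (isClosed_le nsq_cont continuous_const) ?_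
    refine (Metric.isBounded_closedBall (x := (0 : V n)) (r := 1)).subset ?_
    intro z hz
    have hz' : nsq z ≤ 1 := hz
    rw [mem_closedBall_zero_iff, pi_norm_le_iff_of_nonneg (by norm_num)]
    intro k
    have h3 : ‖z k‖ ^ 2 ≤ nsq z := by
      unfold nsq
      exact Finset.single_le_sum (f := fun k => ‖z k‖ ^ 2) (fun _ _ => by positivity) (Finset.mem_univ k)
    nlinarith [norm_nonneg (z k)]
  obtain ⟨M, hM⟩ := hcomp.exists_bound_of_continuousOn hfc.continuousOn
  set C' := max (max (2 * C / α) M) 0 with hC'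
  have hC'0 : 0 ≤ C' := le_max_right _ _
  have hC'M : M ≤ C' := (le_max_right _ _).trans (le_max_left _ _)
  have hC'C : 2 * C / α ≤ C' := (le_max_left _ _).trans (le_max_left _ _)
  have hge : ∀ Q : ℝ, 0 ≤ Q → 1 ≤ (1 + Q) ^ s * Real.exp (α * Q / 2) := by
    intro Q hQ
    have h1 : 1 ≤ (1 + Q) ^ s := one_le_pow₀ (by linarith)
    have h2 : 1 ≤ Real.exp (α * Q / 2) := Real.one_le_exp (by positivity)
    nlinarith
  refine ⟨C', fun z => ?_⟩
  set Q := nsq z with hQ
  have hQ0 : 0 ≤ Q := nsq_nonneg z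
  rcases le_or_gt Q 1 with hQ1 | hQ1
  · have h1 := hM z hQ1
    have h2 := hge Q hQ0
    nlinarith
  · set a : ℝ := 1 / Real.sqrt Q with ha
    have hsq : 0 < Real.sqrt Q := Real.sqrt_pos.2 (by linarith)
    have ha0 : 0 < a := by positivity
    have ha2 : a ^ 2 * Q = 1 := by
      rw [ha, div_pow, Real.sq_sqrt hQ0]; field_simp
    have ha1 : a ≤ 1 := by
      rw [ha, div_le_one hsq]
      exact Real.one_le_sqrt.2 hQ1.le
    have hder : ∀ x : ℝ, HasDerivAt (fun x : ℝ => f ((x : ℂ) • z)) (fderiv ℂ f ((x : ℂ) • z) z) x :=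
      fun x => (slice_deriv hf z (x : ℂ)).comp_ofReal
    have hBd : ∀ x : ℝ, HasDerivAt (fun x : ℝ => C' * ((1 + x ^ 2 * Q) ^ s * Real.exp (α * (x ^ 2 * Q) / 2)))
        (C' * ((s : ℝ) * (1 + x ^ 2 * Q) ^ (s - 1) * (2 * x * Q) * Real.exp (α * (x ^ 2 * Q) / 2) +
          (1 + x ^ 2 * Q) ^ s * (Real.exp (α * (x ^ 2 * Q) / 2) * (α * (2 * x * Q) / 2)))) x := by
      intro x
      have h1 : HasDerivAt (fun x : ℝ => x ^ 2 * Q) (2 * x * Q) x := by
        have := (hasDerivAt_pow 2 x).mul_const Q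
        simpa using this
      have h2 : HasDerivAt (fun x : ℝ => (1 + x ^ 2 * Q) ^ s) ((s : ℝ) * (1 + x ^ 2 * Q) ^ (s - 1) * (2 * x * Q)) x :=
        (h1.const_add 1).pow s
      have h3 : HasDerivAt (fun x : ℝ => Real.exp (α * (x ^ 2 * Q) / 2))
          (Real.exp (α * (x ^ 2 * Q) / 2) * (α * (2 * x * Q) / 2)) x :=
        ((h1.const_mul α).div_const 2).exp
      exact (h2.mul h3).const_mul C'
    have hkey := image_norm_le_of_norm_deriv_right_le_deriv_boundary
      (f := fun x : ℝ => f ((x : ℂ) • z)) (a := a) (b := 1)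
      (f' := fun x : ℝ => fderiv ℂ f ((x : ℂ) • z) z)
      (fun x _ => (hder x).continuousAt.continuousWithinAt)
      (fun x _ => (hder x).hasDerivWithinAt) (B := fun x : ℝ => C' * ((1 + x ^ 2 * Q) ^ s * Real.exp (α * (x ^ 2 * Q) / 2)))
      (by
        have h1 : nsq ((a : ℂ) • z) = 1 := by
          rw [nsq_smul, Complex.norm_real, Real.norm_eq_abs, sq_abs, ha2]
        have h2 := hM ((a : ℂ) • z) h1.le
        rw [ha2]
        have h3 := hge 1 zero_le_one
        refine h2.trans ?_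
        nlinarith) hBd
      (by
        intro x hx
        have hx0 : 0 < x := lt_of_lt_of_le ha0 hx.1
        have hxQ : 1 ≤ x ^ 2 * Q := by
          rw [← ha2]
          have := hx.1
          gcongr
        have h1 := hC ((x : ℂ) • z)
        rw [slice_Rad, norm_mul, Complex.norm_real, Real.norm_eq_abs, abs_of_pos hx0,
          nsq_smul, Complex.norm_real, Real.norm_eq_abs, sq_abs, ← hQ] at h1
        set E := Real.exp (α * (x ^ 2 * Q) / 2) with hE
        have hE0 : 0 < E := Real.exp_pos _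
        set P := (1 + x ^ 2 * Q) ^ s with hP
        have hP0 : 0 < P := by positivity
        have hC0 : 2 * C ≤ C' * α := by
          rwa [div_le_iff₀ hα] at hC'C
        have h2 : ‖fderiv ℂ f ((x : ℂ) • z) z‖ * x ≤ C' * (P * (E * (α * (2 * x * Q) / 2))) * x := by
          have e1 : C * ((1 + x ^ 2 * Q) ^ (s + 1) * E) = C * (P * E) * (1 + x ^ 2 * Q) := by
            rw [pow_succ, hP]; ring
          rw [e1] at h1
          have e2 : C' * (P * (E * (α * (2 * x * Q) / 2))) * x = C' * α * (P * E) * (x ^ 2 * Q) := by ring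
          rw [e2]
          have hPE : 0 < P * E := by positivity
          have e3 : C * (P * E) * (1 + x ^ 2 * Q) ≤ C' * α * (P * E) * (x ^ 2 * Q) := by
            rcases le_or_gt C 0 with hCn | hCp
            · have a1 : C * (P * E) * (1 + x ^ 2 * Q) ≤ 0 :=
                mul_nonpos_of_nonpos_of_nonneg (mul_nonpos_of_nonpos_of_nonneg hCn hPE.le) (by positivity)
              have a2 : 0 ≤ C' * α * (P * E) * (x ^ 2 * Q) := by positivity
              linarith
            · calc C * (P * E) * (1 + x ^ 2 * Q) ≤ C * (P * E) * (2 * (x ^ 2 * Q)) := by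
                    gcongr; linarith
                _ = (2 * C) * (P * E) * (x ^ 2 * Q) := by ring
                _ ≤ (C' * α) * (P * E) * (x ^ 2 * Q) := by gcongr
          linarith
        have h3 := le_of_mul_le_mul_right h2 hx0
        refine h3.trans ?_
        gcongr
        have : 0 ≤ (s : ℝ) * (1 + x ^ 2 * Q) ^ (s - 1) * (2 * x * Q) * E := by positivity
        linarith)
      (right_mem_Icc.2 ha1)
    simpa using hkey

/-! ### relation with `MemLp` -/

/-- membership in `L^p_α` -/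
def InL (α : ℝ) (p : ℝ≥0∞) (f : V n → ℂ) : Prop :=
  MemLp (fun z => f z * ((Real.exp (-(α * nsq z) / 2) : ℝ) : ℂ)) p volume

/-- membership in the Fock space -/
def InFock (α : ℝ) (p : ℝ≥0∞) (f : V n → ℂ) : Prop := AnalyticOnNhd ℂ f univ ∧ InL α p f

lemma cont_wt {f : V n → ℂ} (hf : Continuous f) (α : ℝ) (s : ℕ) :
    Continuous (fun z => (f z / ((1 + nsq z : ℝ) : ℂ) ^ s) * ((Real.exp (-(α * nsq z) / 2) : ℝ) : ℂ)) := by
  have hn := nsq_cont (n := n)
  refine Continuous.mul (Continuous.div hf ?_ ?_) ?_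
  · exact (Complex.continuous_ofReal.comp (continuous_const.add hn)).pow s
  · intro z
    have := nsq_nonneg z
    exact pow_ne_zero _ (by exact_mod_cast (show (1 + nsq z : ℝ) ≠ 0 by positivity))
  · refine Complex.continuous_ofReal.comp ?_
    fun_prop

lemma norm_wt (f : V n → ℂ) (α : ℝ) (s : ℕ) (z : V n) :
    ‖(f z / ((1 + nsq z : ℝ) : ℂ) ^ s) * ((Real.exp (-(α * nsq z) / 2) : ℝ) : ℂ)‖ =
      ‖f z‖ * (((1 + nsq z) ^ s)⁻¹ * Real.exp (-(α * nsq z) / 2)) := by
  have := nsq_nonneg z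
  rw [norm_mul, norm_div, norm_pow, Complex.norm_real, Complex.norm_real, Real.norm_eq_abs,
    Real.norm_eq_abs, abs_of_pos (by positivity), abs_of_pos (Real.exp_pos _)]
  ring

lemma InL_iff_Phi {f : V n → ℂ} (hf : Continuous f) {α : ℝ} (s : ℕ) {p : ℝ≥0∞} (hp0 : p ≠ 0)
    (hpt : p ≠ ∞) :
    InL α p (fun z => f z / ((1 + nsq z : ℝ) : ℂ) ^ s) ↔ Phi α p.toReal s f < ∞ := by
  unfold InL
  have hp : 0 < p.toReal := ENNReal.toReal_pos hp0 hpt
  have hm : AEStronglyMeasurable (fun z => (f z / ((1 + nsq z : ℝ) : ℂ) ^ s) *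
      ((Real.exp (-(α * nsq z) / 2) : ℝ) : ℂ)) volume := (cont_wt hf α s).aestronglyMeasurable
  have e : ∫⁻ z, ‖(f z / ((1 + nsq z : ℝ) : ℂ) ^ s) * ((Real.exp (-(α * nsq z) / 2) : ℝ) : ℂ)‖ₑ ^ p.toReal =
      Phi α p.toReal s f := by
    unfold Phi
    refine lintegral_congr fun z => ?_
    have hz := nsq_nonneg z
    rw [← ofReal_norm, norm_wt, ENNReal.ofReal_mul (norm_nonneg _),
      ENNReal.mul_rpow_of_nonneg _ _ hp.le, ofReal_norm]
    congr 1
    unfold kap
    rw [ENNReal.ofReal_rpow_of_nonneg (by positivity) hp.le]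
  constructor
  · intro h
    have := (eLpNorm_lt_top_iff_lintegral_rpow_enorm_lt_top hp0 hpt).1 h.2
    rwa [e] at this
  · intro h
    refine ⟨hm, (eLpNorm_lt_top_iff_lintegral_rpow_enorm_lt_top hp0 hpt).2 ?_⟩
    rwa [e]

lemma InL_iff_Bd {f : V n → ℂ} (hf : Continuous f) {α : ℝ} (s : ℕ) :
    InL α ∞ (fun z => f z / ((1 + nsq z : ℝ) : ℂ) ^ s) ↔ Bd α s f := by
  unfold InL
  have hm := cont_wt hf α s
  constructor
  · intro h
    have h1 := h.2
    rw [eLpNorm_exponent_top] at h1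
    set S := eLpNormEssSup (fun z => (f z / ((1 + nsq z : ℝ) : ℂ) ^ s) *
      ((Real.exp (-(α * nsq z) / 2) : ℝ) : ℂ)) volume with hS
    have h2 : ∀ᵐ z, ‖(f z / ((1 + nsq z : ℝ) : ℂ) ^ s) * ((Real.exp (-(α * nsq z) / 2) : ℝ) : ℂ)‖ₑ ≤ S :=
      enorm_ae_le_eLpNormEssSup _ _
    have h3 : IsOpen {z : V n | S.toReal < ‖(f z / ((1 + nsq z : ℝ) : ℂ) ^ s) *
        ((Real.exp (-(α * nsq z) / 2) : ℝ) : ℂ)‖} := isOpen_lt continuous_const hm.norm
    have h4 : volume {z : V n | S.toReal < ‖(f z / ((1 + nsq z : ℝ) : ℂ) ^ s) *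
        ((Real.exp (-(α * nsq z) / 2) : ℝ) : ℂ)‖} = 0 := by
      refine measure_mono_null ?_ (ae_iff.1 h2)
      intro z hz
      have hz' : S.toReal < ‖(f z / ((1 + nsq z : ℝ) : ℂ) ^ s) *
        ((Real.exp (-(α * nsq z) / 2) : ℝ) : ℂ)‖ := hz
      intro hcon
      rw [← ofReal_norm] at hcon
      have := ENNReal.toReal_mono h1.ne hcon
      rw [ENNReal.toReal_ofReal (norm_nonneg _)] at this
      linarith
    have h5 := (h3.measure_eq_zero_iff volume).1 h4
    refine ⟨S.toReal, fun z => ?_⟩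
    have h6 : ‖(f z / ((1 + nsq z : ℝ) : ℂ) ^ s) * ((Real.exp (-(α * nsq z) / 2) : ℝ) : ℂ)‖ ≤ S.toReal := by
      by_contra hcon
      push Not at hcon
      have : z ∈ {z : V n | S.toReal < ‖(f z / ((1 + nsq z : ℝ) : ℂ) ^ s) *
        ((Real.exp (-(α * nsq z) / 2) : ℝ) : ℂ)‖} := hcon
      rw [h5] at this
      exact this
    rw [norm_wt] at h6
    have hz := nsq_nonneg z
    have e1 : ‖f z‖ = ‖f z‖ * (((1 + nsq z) ^ s)⁻¹ * Real.exp (-(α * nsq z) / 2)) *
        ((1 + nsq z) ^ s * Real.exp (α * nsq z / 2)) := by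
      have e2 : Real.exp (-(α * nsq z) / 2) = (Real.exp (α * nsq z / 2))⁻¹ := by
        rw [← Real.exp_neg]; congr 1; ring
      rw [e2]
      have : 0 < Real.exp (α * nsq z / 2) := Real.exp_pos _
      field_simp
    rw [e1]
    gcongr
  · rintro ⟨C, hC⟩
    refine memLp_top_of_bound hm.aestronglyMeasurable C (Eventually.of_forall fun z => ?_)
    rw [norm_wt]
    have hz := nsq_nonneg z
    have e2 : Real.exp (-(α * nsq z) / 2) = (Real.exp (α * nsq z / 2))⁻¹ := by
      rw [← Real.exp_neg]; congr 1; ring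
    rw [e2]
    calc ‖f z‖ * (((1 + nsq z) ^ s)⁻¹ * (Real.exp (α * nsq z / 2))⁻¹)
        ≤ (C * ((1 + nsq z) ^ s * Real.exp (α * nsq z / 2))) *
          (((1 + nsq z) ^ s)⁻¹ * (Real.exp (α * nsq z / 2))⁻¹) := by
          gcongr
          exact hC z
      _ = C := by
          have : 0 < Real.exp (α * nsq z / 2) := Real.exp_pos _
          field_simp

/-- one step, all `p` -/
lemma one_step {α : ℝ} (hα : 0 < α) {p : ℝ≥0∞} (hp : 0 < p) (s : ℕ) {f : V n → ℂ}
    (hf : AnalyticOnNhd ℂ f univ) :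
    InL α p (fun z => f z / ((1 + nsq z : ℝ) : ℂ) ^ s) ↔
      InL α p (fun z => Rad f z / ((1 + nsq z : ℝ) : ℂ) ^ (s + 1)) := by
  rcases eq_or_ne p ∞ with rfl | hpt
  · rw [InL_iff_Bd (cont_of hf), InL_iff_Bd (cont_of (Rad_analytic hf))]
    exact ⟨forwardTop hα s hf, backwardTop hα s hf⟩
  · have hp' : 0 < p.toReal := ENNReal.toReal_pos hp.ne' hpt
    rw [InL_iff_Phi (cont_of hf) s hp.ne' hpt, InL_iff_Phi (cont_of (Rad_analytic hf)) (s + 1) hp.ne' hpt]
    exact ⟨forward hα hp' s hf, backward hα hp' s hf⟩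

theorem main {α : ℝ} (hα : 0 < α) {p : ℝ≥0∞} (hp : 0 < p) (N : ℕ) {f : V n → ℂ}
    (hf : AnalyticOnNhd ℂ f univ) :
    InL α p f ↔ InL α p (fun z => (Rad^[N] f) z / ((1 + nsq z : ℝ) : ℂ) ^ N) := by
  induction N with
  | zero => simp
  | succ N ih =>
    rw [ih, one_step hα hp N (Rad_iter_analytic hf N), Function.iterate_succ_apply']

end Pool.Agent.R231.FK
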