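import Pool.Agent.R231.FK.Pt
import Pool.Agent.R231.FK.Shells
import Pool.Agent.R231.FK.Small

namespace Pool.Agent.R231.FK

open MeasureTheory Set Filter Topology Metric Real
open scoped ENNReal

variable {n : ℕ}

lemma wt_meas {f : V n → ℂ} (hf : Continuous f) (α p : ℝ) (s : ℕ) :
    Measurable (fun z : V n => ‖f z‖ₑ ^ p * ENNReal.ofReal (kap α p s (nsq z))) := by
  refine (hf.enorm.measurable.pow_const p).mul ?_
  refine ENNReal.measurable_ofReal.comp ?_
  unfold kap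
  refine Measurable.pow_const ?_ p
  refine Measurable.mul ?_ ?_
  · exact ((measurable_const.add nsq_cont.measurable).pow_const s).inv
  · exact (((measurable_const.mul nsq_cont.measurable).neg).div_const 2).exp

/-- splitting off the first four shells -/
lemma Phi_lt_of_tail {α p : ℝ} (hα : 0 < α) (hp : 0 < p) (s : ℕ) {f : V n → ℂ} (hf : Continuous f)
    (h : ∑' m : ℕ, ∫⁻ z in Sh n (m + 4) (m + 5), ‖f z‖ₑ ^ p * ENNReal.ofReal (kap α p s (nsq z)) < ∞) :
    Phi α p s f < ∞ := by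
  unfold Phi
  rw [← sum_shells]
  have e := (ENNReal.summable (f := fun i : ℕ => ∫⁻ z in Sh n ((i + 4 : ℕ) : ℝ) ((i + 4 : ℕ) + 1),
    ‖f z‖ₑ ^ p * ENNReal.ofReal (kap α p s (nsq z)))).sum_add_tsum_nat_add'
    (f := fun i : ℕ => ∫⁻ z in Sh n (i : ℝ) (i + 1),
      ‖f z‖ₑ ^ p * ENNReal.ofReal (kap α p s (nsq z)))
  rw [← e]
  refine ENNReal.add_lt_top.2 ⟨ENNReal.sum_lt_top.2 fun i _ => ?_, ?_⟩
  · refine lt_of_le_of_lt (kap_le_shell hα hp s f (Nat.cast_nonneg i)) ?_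
    exact ENNReal.mul_lt_top ENNReal.ofReal_lt_top (shell_finite hf hp _ _)
  · refine lt_of_le_of_lt (le_of_eq ?_) h
    congr 1
    funext i
    push_cast
    have : (i : ℝ) + 4 + 1 = i + 5 := by ring
    rw [this]

theorem forward {α p : ℝ} (hα : 0 < α) (hp : 0 < p) (s : ℕ) {f : V n → ℂ}
    (hf : AnalyticOnNhd ℂ f univ) (h : Phi α p s f < ∞) : Phi α p (s + 1) (Rad f) < ∞ := by
  refine Phi_lt_of_tail hα hp (s + 1) (cont_of (Rad_analytic hf)) ?_
  set C0 : ℝ := (8 * 10 ^ s * Real.exp (9 * α / 2)) ^ p with hC0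
  have hC0p : 0 ≤ C0 := by positivity
  have hterm : ∀ m : ℕ, ∫⁻ z in Sh n (m + 4) (m + 5), ‖Rad f z‖ₑ ^ p * ENNReal.ofReal (kap α p (s + 1) (nsq z)) ≤
      (ENNReal.ofReal C0 * 4 ^ (n + 1)) *
        ∫⁻ z in Sh n m (m + 13), ‖f z‖ₑ ^ p * ENNReal.ofReal (kap α p s (nsq z)) := by
    intro m
    have hm0 : (0 : ℝ) ≤ m := Nat.cast_nonneg m
    set k : ℝ := (m : ℝ) + 4 with hk
    have hk4 : 4 ≤ k := by linarith
    obtain ⟨H, hH1, hH2⟩ := shell_avg hf hp m
    have h1 : ∫⁻ z in Sh n k (m + 5), ‖Rad f z‖ₑ ^ p ≤ ENNReal.ofReal (k ^ p) *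
        (4 ^ (n + 1) * ∫⁻ z in Sh n m (m + 13), ‖f z‖ₑ ^ p) := by
      calc ∫⁻ z in Sh n k (m + 5), ‖Rad f z‖ₑ ^ p ≤ ∫⁻ z in Sh n k (m + 5), ENNReal.ofReal (k ^ p) * H z := by
            refine setLIntegral_mono' (Sh_meas n _ _) fun z _ => ?_
            exact cauchy_pt hf hp (by linarith) (fun c hc => hH1 z c hc)
        _ = ENNReal.ofReal (k ^ p) * ∫⁻ z in Sh n k (m + 5), H z :=
            lintegral_const_mul' _ _ ENNReal.ofReal_ne_top
        _ ≤ _ := by gcongr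
    calc ∫⁻ z in Sh n k (m + 5), ‖Rad f z‖ₑ ^ p * ENNReal.ofReal (kap α p (s + 1) (nsq z))
        ≤ ENNReal.ofReal (kap α p (s + 1) k) * ∫⁻ z in Sh n k (m + 5), ‖Rad f z‖ₑ ^ p :=
          kap_le_shell hα hp (s + 1) (Rad f) (by linarith)
      _ ≤ ENNReal.ofReal (kap α p (s + 1) k) * (ENNReal.ofReal (k ^ p) *
        (4 ^ (n + 1) * ∫⁻ z in Sh n m (m + 13), ‖f z‖ₑ ^ p)) := by gcongr
      _ = ENNReal.ofReal (kap α p (s + 1) k * k ^ p) *
        (4 ^ (n + 1) * ∫⁻ z in Sh n m (m + 13), ‖f z‖ₑ ^ p) := by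
          rw [ENNReal.ofReal_mul (kap_pos (by linarith)).le]; ring
      _ ≤ ENNReal.ofReal (C0 * kap α p s (k + 9)) *
        (4 ^ (n + 1) * ∫⁻ z in Sh n m (m + 13), ‖f z‖ₑ ^ p) := by
          gcongr ENNReal.ofReal ?_ * _
          exact kap_R1 hp hk4
      _ = (ENNReal.ofReal C0 * 4 ^ (n + 1)) * (ENNReal.ofReal (kap α p s (m + 13)) *
          ∫⁻ z in Sh n m (m + 13), ‖f z‖ₑ ^ p) := by
          rw [ENNReal.ofReal_mul hC0p]
          have : k + 9 = m + 13 := by rw [hk]; ring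
          rw [this]; ring
      _ ≤ _ := by
          gcongr
          exact shell_le_of_kap hα hp s f
  refine lt_of_le_of_lt (ENNReal.tsum_le_tsum hterm) ?_
  rw [ENNReal.tsum_mul_left]
  refine ENNReal.mul_lt_top (ENNReal.mul_lt_top ENNReal.ofReal_lt_top
    (ENNReal.pow_lt_top (by norm_num))) ?_
  refine lt_of_le_of_lt (sum_overlap _) ?_
  exact ENNReal.mul_lt_top (by norm_num) h

theorem backward {α p : ℝ} (hα : 0 < α) (hp : 0 < p) (s : ℕ) {f : V n → ℂ}
    (hf : AnalyticOnNhd ℂ f univ) (h : Phi α p (s + 1) (Rad f) < ∞) : Phi α p s f < ∞ := by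
  have hfc := cont_of hf
  -- constants
  set β : ℝ := Real.exp (-(α * p) / 2) with hβ
  have hβ0 : 0 < β := Real.exp_pos _
  have hβ1 : β < 1 := by
    rw [hβ, Real.exp_lt_one_iff]
    have : 0 < α * p := by positivity
    linarith
  obtain ⟨δ, hδ, hδ2⟩ : ∃ δ : ℝ, 0 < δ ∧ (1 + δ) * (1 + δ) * β < 1 := by
    have hc : Tendsto (fun δ : ℝ => (1 + δ) * (1 + δ) * β) (𝓝[>] 0) (𝓝 ((1 + 0) * (1 + 0) * β)) := by
      have : Continuous (fun δ : ℝ => (1 + δ) * (1 + δ) * β) := by fun_prop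
      exact (this.tendsto 0).mono_left nhdsWithin_le_nhds
    have h1 := hc.eventually (gt_mem_nhds (show (1 + 0) * (1 + 0) * β < 1 by simpa using hβ1))
    obtain ⟨δ, h2, h3⟩ := (h1.and self_mem_nhdsWithin).exists
    exact ⟨δ, h3, h2⟩
  obtain ⟨C, hC, hCab⟩ := add_rpow_le hp hδ
  -- (k/(k-1))^n ≤ 1 + δ eventually
  obtain ⟨M, hM⟩ : ∃ M : ℕ, ∀ m : ℕ, M ≤ m → (((m : ℝ) + 4) / (m + 3)) ^ n ≤ 1 + δ := by
    have hc : Tendsto (fun m : ℕ => (((m : ℝ) + 4) / (m + 3)) ^ n) atTop (𝓝 (1 ^ n)) := by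
      refine Tendsto.pow ?_ n
      have h1 : Tendsto (fun m : ℕ => 1 + 1 / ((m : ℝ) + 3)) atTop (𝓝 (1 + 0)) := by
        refine tendsto_const_nhds.add ?_
        refine Tendsto.const_div_atTop ?_ 1
        exact tendsto_atTop_add_const_right _ _ tendsto_natCast_atTop_atTop
      rw [add_zero] at h1
      refine h1.congr fun m => ?_
      have : (0 : ℝ) ≤ m := Nat.cast_nonneg m
      field_simp
      ring
    rw [one_pow] at hc
    have h1 := hc.eventually (gt_mem_nhds (show (1:ℝ) < 1 + δ by linarith))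
    obtain ⟨M, hM⟩ := eventually_atTop.1 h1
    exact ⟨M, fun m hm => (hM m hm).le⟩
  set q : ℝ≥0∞ := ENNReal.ofReal ((1 + δ) * (1 + δ) * β) with hq
  have hq1 : q < 1 := by
    rw [hq, ← ENNReal.ofReal_one]
    exact (ENNReal.ofReal_lt_ofReal_iff one_pos).2 hδ2
  set C1 : ℝ := (8 * 10 ^ s * Real.exp (9 * α / 2)) ^ p with hC1
  have hC1p : 0 ≤ C1 := by positivity
  set a : ℕ → ℝ≥0∞ := fun i => ENNReal.ofReal (kap α p s i) * ∫⁻ z in Sh n i (i + 1), ‖f z‖ₑ ^ p with ha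
  set D : ℕ → ℝ≥0∞ := fun m => (ENNReal.ofReal C * ENNReal.ofReal C1 * 4 ^ (n + 1)) *
    ∫⁻ z in Sh n m (m + 13), ‖Rad f z‖ₑ ^ p * ENNReal.ofReal (kap α p (s + 1) (nsq z)) with hD
  have hafin : ∀ i, a i < ∞ := fun i =>
    ENNReal.mul_lt_top ENNReal.ofReal_lt_top (shell_finite hfc hp _ _)
  have hDsum : ∑' m, D m < ∞ := by
    rw [hD, ENNReal.tsum_mul_left]
    refine ENNReal.mul_lt_top (ENNReal.mul_lt_top (ENNReal.mul_lt_top ENNReal.ofReal_lt_top
      ENNReal.ofReal_lt_top) (ENNReal.pow_lt_top (by norm_num))) ?_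
    refine lt_of_le_of_lt (sum_overlap _) ?_
    exact ENNReal.mul_lt_top (by norm_num) h
  -- the recursion
  have hrec : ∀ m : ℕ, M ≤ m → a (m + 4) ≤ q * a (m + 3) + D m := by
    intro m hm
    have hm0 : (0 : ℝ) ≤ m := Nat.cast_nonneg m
    set k : ℝ := (m : ℝ) + 4 with hk
    have hk4 : 4 ≤ k := by linarith
    have hk0 : 0 < k := by linarith
    have hk1 : 0 < k - 1 := by linarith
    obtain ⟨H, hH1, hH2⟩ := shell_avg (Rad_analytic hf) hp m
    set t : ℝ := Real.sqrt ((k - 1) / k) with ht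
    have ht2 : t ^ 2 = (k - 1) / k := Real.sq_sqrt (by positivity)
    have ht0 : 0 < t := Real.sqrt_pos.2 (by positivity)
    have ht1 : t ≤ 1 := by
      rw [ht]; apply Real.sqrt_le_one.2
      rw [div_le_one hk0]; linarith
    have hth : 1 / 2 ≤ t := by
      apply Real.le_sqrt_of_sq_le
      rw [le_div_iff₀ hk0]; nlinarith
    have htk : 1 - t ≤ 1 / k := by
      have e1 : 1 / k = 1 - t ^ 2 := by rw [ht2]; field_simp; ring
      rw [e1]; nlinarith
    have hgm : Measurable (fun z : V n => ‖f z‖ₑ ^ p) := hfc.enorm.measurable.pow_const p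
    have hpt : ∀ z : V n, ‖f z‖ₑ ^ p ≤ ENNReal.ofReal (1 + δ) * ‖f ((t : ℂ) • z)‖ₑ ^ p +
        ENNReal.ofReal (C * (2 / k) ^ p) * H z := by
      intro z
      have h1 := diff_pt hf hp hk0 hth ht1 htk (fun c hc => hH1 z c hc)
      calc ‖f z‖ₑ ^ p ≤ (‖f ((t : ℂ) • z)‖ₑ + ENNReal.ofReal (2 / k) * (H z) ^ (1 / p)) ^ p := by gcongr
        _ ≤ _ := hCab _ _
        _ = _ := by
            rw [ENNReal.mul_rpow_of_nonneg _ _ hp.le,
              ENNReal.ofReal_rpow_of_nonneg (by positivity) hp.le,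
              ← ENNReal.rpow_mul, one_div_mul_cancel hp.ne', ENNReal.rpow_one, ← mul_assoc,
              ← ENNReal.ofReal_mul hC.le]
    have hI : ∫⁻ z in Sh n k (m + 5), ‖f z‖ₑ ^ p ≤ ENNReal.ofReal ((1 + δ) * (1 + δ)) *
        (∫⁻ z in Sh n (m + 3) (m + 4), ‖f z‖ₑ ^ p) + ENNReal.ofReal (C * (2 / k) ^ p) *
        (4 ^ (n + 1) * ∫⁻ z in Sh n m (m + 13), ‖Rad f z‖ₑ ^ p) := by
      calc ∫⁻ z in Sh n k (m + 5), ‖f z‖ₑ ^ p ≤ ∫⁻ z in Sh n k (m + 5),
            (ENNReal.ofReal (1 + δ) * ‖f ((t : ℂ) • z)‖ₑ ^ p + ENNReal.ofReal (C * (2 / k) ^ p) * H z) :=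
            lintegral_mono fun z => hpt z
        _ = (∫⁻ z in Sh n k (m + 5), ENNReal.ofReal (1 + δ) * ‖f ((t : ℂ) • z)‖ₑ ^ p) +
            ∫⁻ z in Sh n k (m + 5), ENNReal.ofReal (C * (2 / k) ^ p) * H z := by
            refine lintegral_add_left ?_ _
            have : Measurable (fun z : V n => ‖f ((t : ℂ) • z)‖ₑ ^ p) :=
              hgm.comp (continuous_const_smul (t : ℂ)).measurable
            exact measurable_const.mul this
        _ = ENNReal.ofReal (1 + δ) * (∫⁻ z in Sh n k (m + 5), ‖f ((t : ℂ) • z)‖ₑ ^ p) +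
            ENNReal.ofReal (C * (2 / k) ^ p) * ∫⁻ z in Sh n k (m + 5), H z := by
            rw [lintegral_const_mul' _ _ ENNReal.ofReal_ne_top,
              lintegral_const_mul' _ _ ENNReal.ofReal_ne_top]
        _ ≤ _ := by
            have htc : (t : ℂ) ≠ 0 := by exact_mod_cast ht0.ne'
            have h2 := setLIntegral_smul_le htc hgm (Sh_meas n k (m + 5))
              (Sh_meas n ((m : ℝ) + 3) (m + 4)) (by
                rintro z ⟨hz1, hz2⟩
                have hnn : ‖(t : ℂ)‖ ^ 2 = (k - 1) / k := by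
                  rw [Complex.norm_real, Real.norm_eq_abs, sq_abs, ht2]
                refine ⟨?_, ?_⟩
                · rw [nsq_smul, hnn, div_mul_eq_mul_div, le_div_iff₀ hk0]
                  have : (m : ℝ) + 3 = k - 1 := by rw [hk]; ring
                  rw [this]; nlinarith
                · rw [nsq_smul, hnn, div_mul_eq_mul_div, div_lt_iff₀ hk0]
                  have hz2' : nsq z < k + 1 := by rw [hk]; linarith
                  have : (m : ℝ) + 4 = k := by rw [hk]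
                  rw [this]; nlinarith)
            have h3 : ENNReal.ofReal ((‖(t : ℂ)‖⁻¹) ^ (2 * n)) ≤ ENNReal.ofReal (1 + δ) := by
              apply ENNReal.ofReal_le_ofReal
              rw [Complex.norm_real, Real.norm_eq_abs, abs_of_pos ht0, pow_mul, inv_pow, ht2, inv_div]
              have e4 : k - 1 = m + 3 := by rw [hk]; ring
              rw [e4]
              exact hM m hm
            have h4 : ENNReal.ofReal (1 + δ) * ∫⁻ z in Sh n k (m + 5), ‖f ((t : ℂ) • z)‖ₑ ^ p ≤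
                ENNReal.ofReal ((1 + δ) * (1 + δ)) * (∫⁻ z in Sh n (m + 3) (m + 4), ‖f z‖ₑ ^ p) := by
              rw [ENNReal.ofReal_mul (by positivity), mul_assoc]
              gcongr
              exact h2.trans (by gcongr)
            gcongr
    have hka : a (m + 4) = ENNReal.ofReal (kap α p s k) * ∫⁻ z in Sh n k (m + 5), ‖f z‖ₑ ^ p := by
      rw [ha]
      have e5 : ((m + 4 : ℕ) : ℝ) = k := by push_cast; rfl
      have e6 : k + 1 = (m : ℝ) + 5 := by rw [hk]; ring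
      simp only
      rw [e5, e6]
    have hka3 : a (m + 3) = ENNReal.ofReal (kap α p s (k - 1)) *
        ∫⁻ z in Sh n (m + 3) (m + 4), ‖f z‖ₑ ^ p := by
      rw [ha]
      have e5 : ((m + 3 : ℕ) : ℝ) = (m : ℝ) + 3 := by push_cast; rfl
      have e6 : (m : ℝ) + 3 + 1 = (m : ℝ) + 4 := by ring
      have e7 : k - 1 = (m : ℝ) + 3 := by rw [hk]; ring
      simp only
      rw [e5, e6, e7]
    rw [hka, hka3]
    have hkp : 0 < kap α p s k := kap_pos hk0.le
    calc ENNReal.ofReal (kap α p s k) * ∫⁻ z in Sh n k (m + 5), ‖f z‖ₑ ^ p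
        ≤ ENNReal.ofReal (kap α p s k) * (ENNReal.ofReal ((1 + δ) * (1 + δ)) *
        (∫⁻ z in Sh n (m + 3) (m + 4), ‖f z‖ₑ ^ p) + ENNReal.ofReal (C * (2 / k) ^ p) *
        (4 ^ (n + 1) * ∫⁻ z in Sh n m (m + 13), ‖Rad f z‖ₑ ^ p)) := by gcongr
      _ = ENNReal.ofReal ((1 + δ) * (1 + δ) * kap α p s k) *
        (∫⁻ z in Sh n (m + 3) (m + 4), ‖f z‖ₑ ^ p) + ENNReal.ofReal (C * (kap α p s k * (2 / k) ^ p)) *
        (4 ^ (n + 1) * ∫⁻ z in Sh n m (m + 13), ‖Rad f z‖ₑ ^ p) := by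
          rw [mul_add, ← mul_assoc, ← mul_assoc, ← ENNReal.ofReal_mul hkp.le, ← ENNReal.ofReal_mul hkp.le]
          congr 3
          · ring
          · ring
      _ ≤ q * (ENNReal.ofReal (kap α p s (k - 1)) * ∫⁻ z in Sh n (m + 3) (m + 4), ‖f z‖ₑ ^ p) + D m := by
          gcongr ?_ + ?_
          · rw [← mul_assoc, hq, ← ENNReal.ofReal_mul (by positivity)]
            gcongr ENNReal.ofReal ?_ * _
            have := kap_shift (α := α) hp (s := s) (k := k) (by linarith)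
            rw [mul_assoc ((1 + δ) * (1 + δ))]
            gcongr
          · rw [hD]
            simp only
            calc ENNReal.ofReal (C * (kap α p s k * (2 / k) ^ p)) *
                (4 ^ (n + 1) * ∫⁻ z in Sh n m (m + 13), ‖Rad f z‖ₑ ^ p)
                ≤ ENNReal.ofReal (C * (C1 * kap α p (s + 1) (k + 9))) *
                (4 ^ (n + 1) * ∫⁻ z in Sh n m (m + 13), ‖Rad f z‖ₑ ^ p) := by
                  gcongr ENNReal.ofReal (C * ?_) * _
                  exact kap_R2 hp hk4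
              _ = (ENNReal.ofReal C * ENNReal.ofReal C1 * 4 ^ (n + 1)) *
                (ENNReal.ofReal (kap α p (s + 1) (m + 13)) * ∫⁻ z in Sh n m (m + 13), ‖Rad f z‖ₑ ^ p) := by
                  have : k + 9 = m + 13 := by rw [hk]; ring
                  rw [this, ENNReal.ofReal_mul hC.le, ENNReal.ofReal_mul hC1p]; ring
              _ ≤ _ := by
                  gcongr
                  exact shell_le_of_kap hα hp (s + 1) (Rad f)
  -- conclusion
  have hsum : ∑' i, a i < ∞ := by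
    refine rec_sum (K := M + 3) (d := fun m => D (m + M)) hq1 ?_ hafin ?_
    · intro m
      have := hrec (M + m) (by omega)
      have e1 : M + 3 + m + 1 = M + m + 4 := by omega
      have e2 : M + 3 + m = M + m + 3 := by omega
      have e3 : m + M = M + m := by omega
      rw [e1, e2]
      simp only [e3]
      exact this
    · exact lt_of_le_of_lt (ENNReal.tsum_comp_le_tsum_of_injective (add_left_injective M) D) hDsum
  unfold Phi
  rw [← sum_shells]
  refine lt_of_le_of_lt (ENNReal.tsum_le_tsum fun i => ?_) hsum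
  exact kap_le_shell hα hp s f (Nat.cast_nonneg i)

end Pool.Agent.R231.FK
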